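import Pool.Agent.W890.SF.Stm

/-!
# Project SAM: mixtures
-/

set_option autoImplicit false

namespace Pool.Agent.W797.SAM

open Finset
open Pool.Agent.W890.SF

theorem cons_map {A B : Type} {n : ℕ} (y : A → B) (v : A) (f : Fin n → A) :
    (fun i => y ((Fin.cons v f : Fin (n + 1) → A) i)) =
      (Fin.cons (y v) (fun i => y (f i)) : Fin (n + 1) → B) := by
  funext i
  refine Fin.cases ?_ (fun j => ?_) i
  · simp
  · simp

theorem gen {V R : Type} [Fintype V] [Fintype R] (y : V → ℝ) (w z : R → ℝ) (N : ℝ)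
    (h : ∀ φ : ℝ → ℝ, ∑ v, φ (y v) = N * ∑ r, w r * φ (z r)) (n : ℕ) :
    ∀ Φ : (Fin n → ℝ) → ℝ, ∑ f : Fin n → V, Φ (fun i => y (f i)) =
      N ^ n * ∑ g : Fin n → R, (∏ i, w (g i)) * Φ (fun i => z (g i)) := by
  induction n with
  | zero =>
    intro Φ
    simp only [Fintype.sum_unique, pow_zero, one_mul, Finset.univ_eq_empty, Finset.prod_empty]
    congr 1
    exact Subsingleton.elim _ _
  | succ n ih =>
    intro Φ
    rw [← (Fin.consEquiv fun _ => V).sum_comp, ← (Fin.consEquiv fun _ => R).sum_comp,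
      Fintype.sum_prod_type, Fintype.sum_prod_type]
    have e1 : ∀ (v : V) (f : Fin n → V),
        Φ (fun i => y ((Fin.consEquiv fun _ => V) (v, f) i)) =
          Φ (Fin.cons (y v) (fun i => y (f i))) := by
      intro v f
      have := cons_map y v f
      exact congrArg Φ this
    have e2 : ∀ (r : R) (g : Fin n → R),
        (∏ i, w ((Fin.consEquiv fun _ => R) (r, g) i)) *
          Φ (fun i => z ((Fin.consEquiv fun _ => R) (r, g) i)) =
          w r * ((∏ i, w (g i)) * Φ (Fin.cons (z r) (fun i => z (g i)))) := by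
      intro r g
      have h1 : Φ (fun i => z ((Fin.consEquiv fun _ => R) (r, g) i)) =
          Φ (Fin.cons (z r) (fun i => z (g i))) := congrArg Φ (cons_map z r g)
      rw [h1, Fin.prod_univ_succ, mul_assoc]
      rfl
    simp only [e1, e2]
    rw [h (fun t => ∑ f : Fin n → V, Φ (Fin.cons t (fun i => y (f i))))]
    have e3 : ∀ r : R, ∑ f : Fin n → V, Φ (Fin.cons (z r) (fun i => y (f i))) =
        N ^ n * ∑ g : Fin n → R, (∏ i, w (g i)) * Φ (Fin.cons (z r) (fun i => z (g i))) :=
      fun r => ih (fun u => Φ (Fin.cons (z r) u))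
    simp only [e3]
    rw [pow_succ, mul_comm (N ^ n) N, mul_assoc]
    congr 1
    rw [Finset.mul_sum]
    refine Finset.sum_congr rfl fun r _ => ?_
    rw [← Finset.mul_sum]
    ring

/-- outcomes as Boolean functions -/
theorem sum_bool {r : ℕ} (F : Finset (Fin r) → ℝ) :
    ∑ e : Fin r → Bool, F (univ.filter fun i => e i = true) =
      ∑ w ∈ (univ : Finset (Fin r)).powerset, F w := by
  rw [Finset.powerset_univ]
  refine Finset.sum_bij' (fun e _ => univ.filter fun i => e i = true)
    (fun w _ => fun i => decide (i ∈ w)) ?_ ?_ ?_ ?_ ?_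
  · intro e _
    exact mem_univ _
  · intro w _
    exact mem_univ _
  · intro e _
    funext i
    simp
  · intro w _
    ext i
    simp
  · intro e _
    rfl

theorem mix1 : S_MIX1 := by
  intro V P _ _ y π a b q h r
  have h' : ∀ φ : ℝ → ℝ, ∑ v, φ (y v) = (Fintype.card V : ℝ) * ∑ s : P × Bool,
      (π s.1 * (if s.2 = true then q s.1 else 1 - q s.1)) *
        φ (if s.2 = true then a s.1 + b s.1 else a s.1) := by
    intro φ
    rw [h φ, Fintype.sum_prod_type]
    congr 1
    refine Finset.sum_congr rfl fun p _ => ?_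
    rw [Fintype.sum_bool]
    simp only [if_true, Bool.false_eq_true, if_false]
    ring
  have hg := gen y _ _ _ h' r (fun u => if ∑ i, u i < 1 then 1 else 0)
  have hl : (({f : Fin r → V | ∑ i, y (f i) < 1}.ncard : ℕ) : ℝ) =
      ∑ f : Fin r → V, (if ∑ i, y (f i) < 1 then (1 : ℝ) else 0) := by
    classical
    rw [Finset.sum_boole, Set.ncard_eq_toFinset_card']
    congr 2
    ext f
    simp
  rw [hl, hg]
  congr 1
  rw [← (Equiv.arrowProdEquivProdArrow (Fin r) (fun _ => P) (fun _ => Bool)).symm.sum_comp,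
    Fintype.sum_prod_type]
  refine Finset.sum_congr rfl fun p _ => ?_
  unfold PP PU
  rw [← sum_bool (fun ω => if ∑ i ∈ ω, b (p i) < 1 - ∑ i, a (p i) then
    Wt (fun i => q (p i)) univ ω else 0), Finset.mul_sum]
  refine Finset.sum_congr rfl fun e _ => ?_
  have k1 : (∏ i : Fin r, (π (p i) * (if e i = true then q (p i) else 1 - q (p i)))) =
      (∏ i, π (p i)) * Wt (fun i => q (p i)) univ (univ.filter fun i => e i = true) := by
    rw [Finset.prod_mul_distrib]
    congr 1
    unfold Wt
    rw [Finset.prod_ite]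
    congr 1
    apply Finset.prod_congr _ (fun _ _ => rfl)
    ext i
    simp
  have k2 : (∑ i : Fin r, (if e i = true then a (p i) + b (p i) else a (p i))) =
      (∑ i, a (p i)) + ∑ i ∈ univ.filter (fun i => e i = true), b (p i) := by
    rw [Finset.sum_filter, ← Finset.sum_add_distrib]
    refine Finset.sum_congr rfl fun i _ => ?_
    split_ifs <;> ring
  show (∏ i : Fin r, (π (p i) * (if e i = true then q (p i) else 1 - q (p i)))) *
    (if ∑ i : Fin r, (if e i = true then a (p i) + b (p i) else a (p i)) < 1 then 1 else 0) = _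
  rw [k1, k2]
  by_cases hc : ∑ i ∈ univ.filter (fun i => e i = true), b (p i) < 1 - ∑ i, a (p i)
  · rw [if_pos hc, if_pos (by linarith), mul_one]
  · rw [if_neg hc, if_neg (by intro h; exact hc (by linarith)), mul_zero, mul_zero]

end Pool.Agent.W797.SAM
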